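import Mathlib

namespace Pool.Agent.Results.MP_e4fc02_an.No

open Filter Topology Set MeasureTheory

noncomputable section

section Defs
variable {E : Type} [NormedAddCommGroup E] [NormedSpace ℝ E] [PartialOrder E]

/-- substochastic (positive, contractive) `C₀`-semigroup -/
def IsSub (S : ℝ → E →L[ℝ] E) : Prop :=
  (∀ x, S 0 x = x) ∧ (∀ s t, 0 ≤ s → 0 ≤ t → ∀ x, S (s + t) x = S s (S t x)) ∧
  (∀ x, ContinuousOn (fun t => S t x) (Ici 0)) ∧
  ∀ t, 0 ≤ t → ∀ x, ‖S t x‖ ≤ ‖x‖ ∧ (0 ≤ x → 0 ≤ S t x)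

/-- graph of the generator -/
def Gen (S : ℝ → E →L[ℝ] E) : Set (E × E) :=
  {p | Tendsto (fun h : ℝ => h⁻¹ • (S h p.1 - p.1)) (𝓝[>] 0) (𝓝 p.2)}

/-- domain of an operator given by its graph -/
def dom (G : Set (E × E)) : Set E := Prod.fst '' G

/-- graph of `M₁ + P` on `D(M₁)` -/
def SumG (M : ℝ → E →L[ℝ] E) (P : E → E) : Set (E × E) :=
  {p | ∃ y, (p.1, y) ∈ Gen M ∧ p.2 = y + P p.1}

/-- `P` is linear and positive on `D ⊇ D(M₁)` and `∫ (M₁ φ + P φ) ≤ 0` on `D₊(M₁)` -/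
def IsPert (int : E → ℝ) (M : ℝ → E →L[ℝ] E) (D : Submodule ℝ E) (P : E → E) : Prop :=
  (∀ c : ℝ, ∀ x ∈ D, ∀ y ∈ D, P (c • x + y) = c • P x + P y) ∧ (∀ x ∈ D, 0 ≤ x → 0 ≤ P x) ∧
  dom (Gen M) ⊆ D ∧ ∀ p ∈ SumG M P, 0 ≤ p.1 → int p.2 ≤ 0

/-- `J` is the minimal substochastic semigroup whose generator extends `M₁ + P` -/
def IsKV (M : ℝ → E →L[ℝ] E) (P : E → E) (J : ℝ → E →L[ℝ] E) : Prop :=
  IsSub J ∧ SumG M P ⊆ Gen J ∧
  ∀ S, IsSub S → SumG M P ⊆ Gen S → ∀ t, 0 ≤ t → ∀ x, 0 ≤ x → J t x ≤ S t x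

/-- `P (0 - M₁)⁻¹ u = u`: with `r l = (l - M₁)⁻¹ u`, `P (r l) → u` as `l → 0⁺` -/
def Fix (M : ℝ → E →L[ℝ] E) (P : E → E) (u : E) : Prop :=
  ∃ r : ℝ → E, (∀ l, 0 < l → (r l, l • r l - u) ∈ Gen M) ∧
    Tendsto (fun l => P (r l)) (𝓝[>] 0) (𝓝 u)

/-- the assertion of Q1 on the space `E` with integral `int` -/
def Claim (int : E → ℝ) : Prop :=
  ∀ (M J : ℝ → E →L[ℝ] E) (D : Submodule ℝ E) (P : E → E), IsSub M → IsPert int M D P →
    IsKV M P J → Gen J = closure (SumG M P) → dom (Gen J) ≠ dom (Gen M) →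
    (∃ v, 0 ≤ v ∧ v ≠ 0 ∧ v ∉ dom (Gen M) ∧ (v, 0) ∈ Gen J) → ∃ u, 0 ≤ u ∧ u ≠ 0 ∧ Fix M P u

theorem deriv_sg {S : ℝ → E →L[ℝ] E} (hS : IsSub S) {x y : E} (h : (x, y) ∈ Gen S) {t : ℝ}
    (ht : 0 ≤ t) : HasDerivWithinAt (fun s => S s x) (S t y) (Ici t) t := by
  rw [← hasDerivWithinAt_Ioi_iff_Ici, hasDerivWithinAt_iff_tendsto_slope' self_notMem_Ioi]
  have h1 : Tendsto (fun s : ℝ => s - t) (𝓝[>] t) (𝓝[>] 0) := by
    refine tendsto_nhdsWithin_iff.2 ⟨?_, ?_⟩
    · have : Tendsto (fun s : ℝ => s - t) (𝓝 t) (𝓝 (t - t)) := tendsto_id.sub_const t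
      rw [sub_self] at this
      exact this.mono_left nhdsWithin_le_nhds
    · filter_upwards [self_mem_nhdsWithin] with s hs using sub_pos.2 (mem_Ioi.1 hs)
  refine (((S t).continuous.tendsto y).comp (Tendsto.comp h h1)).congr' ?_
  filter_upwards [self_mem_nhdsWithin] with s hs
  have := hS.2.1 t (s - t) ht (sub_pos.2 (mem_Ioi.1 hs)).le x
  rw [add_sub_cancel] at this
  simp [slope, this]

/-- the semigroup generated by `K - 1`, `K x = σ x • v` -/
def JJ (σ : E →L[ℝ] ℝ) (v : E) (t : ℝ) : E →L[ℝ] E :=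
  Real.exp (-t) • ContinuousLinearMap.id ℝ E + (1 - Real.exp (-t)) • σ.smulRight v

omit [PartialOrder E] in
theorem JJ_apply (σ : E →L[ℝ] ℝ) (v : E) (t : ℝ) (x : E) :
    JJ σ v t x = Real.exp (-t) • x + (1 - Real.exp (-t)) • σ x • v := rfl

theorem uniq {S : ℝ → E →L[ℝ] E} (hS : IsSub S) {D : Set E} (hD : Dense D) (σ : E →L[ℝ] ℝ)
    (v : E) (hv : σ v = 1) (h : ∀ x ∈ D, (x, σ x • v - x) ∈ Gen S) {t : ℝ} (ht : 0 ≤ t) (x : E) :
    S t x = JJ σ v t x := by
  have h1 : ∀ t, 0 ≤ t → S t v = v := by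
    intro t ht
    have h2 : ∀ x, ‖S t x - x‖ ≤ ‖σ x • v - x‖ * t := by
      refine hD.induction (fun x hx => ?_) (isClosed_le (by fun_prop) (by fun_prop))
      have := norm_image_sub_le_of_norm_deriv_right_le_segment (a := 0) (b := t)
        ((hS.2.2.1 x).mono Icc_subset_Ici_self) (fun s hs => deriv_sg hS (h x hx) hs.1)
        (fun s hs => (hS.2.2.2 s hs.1 _).1) t ⟨ht, le_rfl⟩
      simpa [hS.1] using this
    have := h2 v
    simpa [hv, sub_eq_zero] using this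
  revert x
  refine hD.induction (fun x hx => ?_) (isClosed_eq (by fun_prop) (by fun_prop))
  have h2 := eq_of_has_deriv_right_eq (a := 0) (b := t) (f := fun s => Real.exp s • S s x)
    (g := fun s => x + (Real.exp s - 1) • σ x • v) (f' := fun s => Real.exp s • σ x • v)
    (fun s hs => by
      have := (Real.hasDerivAt_exp s).hasDerivWithinAt.smul (deriv_sg hS (h x hx) hs.1)
      rw [map_sub, map_smul, h1 s hs.1, smul_sub, sub_add_cancel] at this
      exact this)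
    (fun s hs => (((Real.hasDerivAt_exp s).sub_const 1).smul_const _).hasDerivWithinAt.const_add x)
    (Real.continuous_exp.continuousOn.smul ((hS.2.2.1 x).mono Icc_subset_Ici_self))
    (by fun_prop) (by simp [hS.1]) t ⟨ht, le_rfl⟩
  have h3 : S t x = Real.exp (-t) • (Real.exp t • S t x) := by
    rw [smul_smul, ← Real.exp_add]; simp
  rw [h3, h2, JJ_apply, smul_add, smul_smul, mul_sub, ← Real.exp_add]
  simp

omit [PartialOrder E] in
theorem gen_JJ (σ : E →L[ℝ] ℝ) (v : E) (p : E × E) : p ∈ Gen (JJ σ v) ↔ p.2 = σ p.1 • v - p.1 := by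
  have h1 : HasDerivAt (fun h : ℝ => 1 - Real.exp (-h)) 1 0 := by
    simpa using ((hasDerivAt_neg (0 : ℝ)).exp).const_sub 1
  have h2 := h1.tendsto_slope_zero_right.smul_const (σ p.1 • v - p.1)
  have h3 : Tendsto (fun h : ℝ => h⁻¹ • (JJ σ v h p.1 - p.1)) (𝓝[>] 0) (𝓝 (σ p.1 • v - p.1)) := by
    rw [one_smul] at h2
    refine h2.congr fun h => ?_
    simp only [JJ_apply, zero_add, neg_zero, Real.exp_zero, sub_self, sub_zero, smul_eq_mul,
      mul_smul]
    congr 1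
    module
  exact ⟨fun h => tendsto_nhds_unique h h3, fun h => by rw [Gen, mem_ofPred_eq, h]; exact h3⟩

end Defs

section L1
variable {Ξ : Type} [MeasurableSpace Ξ] {ν : Measure Ξ}

theorem tendsto_L1 {ι : Type} {l : Filter ι} [l.IsCountablyGenerated] (F : ι → Lp ℝ 1 ν)
    (g : Lp ℝ 1 ν) (f : ι → Ξ → ℝ) (b : Ξ → ℝ) (hF : ∀ᶠ i in l, F i =ᵐ[ν] f i)
    (hb : ∀ᶠ i in l, ∀ᵐ a ∂ν, ‖f i a - g a‖ ≤ b a) (hi : Integrable b ν)
    (hl : ∀ᵐ a ∂ν, Tendsto (fun i => f i a) l (𝓝 (g a))) : Tendsto F l (𝓝 g) := by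
  rw [tendsto_iff_norm_sub_tendsto_zero]
  have := tendsto_integral_filter_of_dominated_convergence (μ := ν) (l := l)
    (F := fun i a => ‖f i a - g a‖) (f := fun _ => (0 : ℝ)) b
    (hF.mono fun i hi => (((Lp.aestronglyMeasurable (F i)).congr hi).sub
      (Lp.aestronglyMeasurable g)).norm)
    (by simpa using hb) hi (hl.mono fun a ha => tendsto_iff_norm_sub_tendsto_zero.1 ha)
  rw [integral_zero] at this
  refine this.congr' (hF.mono fun i hi => ?_)
  simp only
  rw [L1.norm_eq_integral_norm]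
  refine integral_congr_ae ?_
  filter_upwards [hi, Lp.coeFn_sub (F i) g] with a h1 h2
  rw [h2, Pi.sub_apply, h1]

theorem int_mul {w : Ξ → ℝ} (hw : Measurable w) {C : ℝ} (h1 : ∀ a, |w a| ≤ C) (x : Lp ℝ 1 ν) :
    Integrable (fun a => w a * x a) ν :=
  (L1.integrable_coeFn x).bdd_mul hw.aestronglyMeasurable (Eventually.of_forall h1)

def mulOp (w : Ξ → ℝ) (hw : Measurable w) (h1 : ∀ a, |w a| ≤ 1) : Lp ℝ 1 ν →L[ℝ] Lp ℝ 1 ν :=
  LinearMap.mkContinuous
    { toFun := fun x => (int_mul hw h1 x).toL1 _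
      map_add' := fun x y => by
        ext1
        filter_upwards [(int_mul hw h1 (x + y)).coeFn_toL1, (int_mul hw h1 x).coeFn_toL1,
          (int_mul hw h1 y).coeFn_toL1, Lp.coeFn_add x y,
          Lp.coeFn_add ((int_mul hw h1 x).toL1 _) ((int_mul hw h1 y).toL1 _)] with a a1 a2 a3 a4 a5
        rw [a1, a5, Pi.add_apply, a2, a3, a4, Pi.add_apply, mul_add]
      map_smul' := fun c x => by
        ext1
        filter_upwards [(int_mul hw h1 (c • x)).coeFn_toL1, (int_mul hw h1 x).coeFn_toL1,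
          Lp.coeFn_smul c x, Lp.coeFn_smul c ((int_mul hw h1 x).toL1 _)] with a a1 a2 a3 a4
        rw [a1, RingHom.id_apply, a4, Pi.smul_apply, a2, a3, Pi.smul_apply, smul_eq_mul,
          smul_eq_mul]
        ring } 1 (fun x => by
    rw [one_mul]
    refine Lp.norm_le_norm_of_ae_le ?_
    filter_upwards [(int_mul hw h1 x).coeFn_toL1] with a a1
    change ‖((int_mul hw h1 x).toL1 _) a‖ ≤ _
    rw [a1, norm_mul]
    exact mul_le_of_le_one_left (norm_nonneg _) (h1 a))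

theorem mulOp_coe (w : Ξ → ℝ) (hw : Measurable w) (h1 : ∀ a, |w a| ≤ 1) (x : Lp ℝ 1 ν) :
    mulOp w hw h1 x =ᵐ[ν] fun a => w a * x a := (int_mul hw h1 x).coeFn_toL1

theorem mulOp_norm (w : Ξ → ℝ) (hw : Measurable w) (h1 : ∀ a, |w a| ≤ 1) (x : Lp ℝ 1 ν) :
    ‖mulOp w hw h1 x‖ ≤ ‖x‖ := by
  simpa using (mulOp w hw h1).le_of_opNorm_le (LinearMap.mkContinuous_norm_le _ zero_le_one _) x

variable (m : Ξ → ℝ) (hm : Measurable m) (h1 : ∀ a, 1 ≤ m a)

include h1 in
theorem exp_le (t : ℝ) (a : Ξ) : |Real.exp (-(m a * |t|))| ≤ 1 := by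
  rw [abs_of_pos (Real.exp_pos _), Real.exp_le_one_iff, neg_nonpos]
  exact mul_nonneg (by linarith [h1 a]) (abs_nonneg _)

def MM (t : ℝ) : Lp ℝ 1 ν →L[ℝ] Lp ℝ 1 ν :=
  mulOp (fun a => Real.exp (-(m a * |t|))) (by fun_prop) (exp_le m h1 t)

theorem MM_coe (t : ℝ) (x : Lp ℝ 1 ν) :
    MM m hm h1 t x =ᵐ[ν] fun a => Real.exp (-(m a * |t|)) * x a := mulOp_coe _ _ _ x

theorem MM_sub : IsSub (MM (ν := ν) m hm h1) := by
  refine ⟨fun x => ?_, fun s t hs ht x => ?_, fun x t _ => ?_, fun t _ x => ⟨mulOp_norm _ _ _ x,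
    fun hx => ?_⟩⟩
  · ext1
    filter_upwards [MM_coe m hm h1 0 x] with a ha
    simp [ha]
  · ext1
    filter_upwards [MM_coe m hm h1 (s + t) x, MM_coe m hm h1 t x,
      MM_coe m hm h1 s (MM m hm h1 t x)] with a a1 a2 a3
    rw [a1, a3, a2, ← mul_assoc, ← Real.exp_add, abs_of_nonneg hs, abs_of_nonneg ht,
      abs_of_nonneg (add_nonneg hs ht)]
    ring_nf
  · refine tendsto_L1 _ _ (fun s a => Real.exp (-(m a * |s|)) * x a) (fun a => 2 * ‖x a‖)
      (Eventually.of_forall fun s => MM_coe m hm h1 s x) (Eventually.of_forall fun s => ?_)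
      ((L1.integrable_coeFn x).norm.const_mul 2) ?_
    · filter_upwards [MM_coe m hm h1 t x] with a ha
      rw [ha, ← sub_mul, norm_mul]
      gcongr
      refine (norm_sub_le _ _).trans ?_
      simp only [Real.norm_eq_abs]
      linarith [exp_le m h1 s a, exp_le m h1 t a]
    · filter_upwards [MM_coe m hm h1 t x] with a ha
      rw [ha]
      exact (Continuous.tendsto (by fun_prop) t).mono_left nhdsWithin_le_nhds
  · rw [← Lp.coeFn_nonneg] at hx ⊢
    filter_upwards [MM_coe m hm h1 t x, hx] with a a1 a2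
    rw [a1]
    exact mul_nonneg (Real.exp_pos _).le a2

theorem slope_exp (c z : ℝ) :
    Tendsto (fun h : ℝ => h⁻¹ * (Real.exp (-(c * |h|)) * z - z)) (𝓝[>] 0) (𝓝 (-(c * z))) := by
  have h1 : HasDerivAt (fun h : ℝ => Real.exp (-(c * h)) * z) (-(c * z)) 0 := by
    simpa using (((hasDerivAt_id (0 : ℝ)).const_mul c).neg.exp).mul_const z
  refine h1.tendsto_slope_zero_right.congr' ?_
  filter_upwards [self_mem_nhdsWithin] with h hh
  simp [abs_of_pos (mem_Ioi.1 hh)]

theorem quot_coe (h : ℝ) (x : Lp ℝ 1 ν) : (h⁻¹ • (MM m hm h1 h x - x) : Lp ℝ 1 ν) =ᵐ[ν]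
    fun a => h⁻¹ * (Real.exp (-(m a * |h|)) * x a - x a) := by
  filter_upwards [Lp.coeFn_smul h⁻¹ (MM m hm h1 h x - x), Lp.coeFn_sub (MM m hm h1 h x) x,
    MM_coe m hm h1 h x] with a a1 a2 a3
  rw [a1, Pi.smul_apply, a2, Pi.sub_apply, a3, smul_eq_mul]

theorem gen_MM (x y : Lp ℝ 1 ν) :
    (x, y) ∈ Gen (MM (ν := ν) m hm h1) ↔ y =ᵐ[ν] fun a => -(m a * x a) := by
  constructor
  · intro h
    obtain ⟨ns, hn, h2⟩ := (tendstoInMeasure_of_tendsto_Lp h).exists_seq_tendsto_ae'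
    filter_upwards [h2, ae_all_iff.2 fun n => quot_coe m hm h1 (ns n) x] with a a1 a2
    simp only [a2] at a1
    exact tendsto_nhds_unique a1 ((slope_exp (m a) (x a)).comp hn)
  · intro h
    refine tendsto_L1 _ _ _ (fun a => 2 * ‖y a‖)
      (Eventually.of_forall fun s => quot_coe m hm h1 s x) ?_
      ((L1.integrable_coeFn y).norm.const_mul 2) ?_
    · filter_upwards [self_mem_nhdsWithin] with s hs
      filter_upwards [h] with a ha
      have hs0 : 0 < s := hs
      refine (norm_sub_le _ _).trans ?_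
      rw [two_mul]
      gcongr
      have hm0 : 0 ≤ m a := by linarith [h1 a]
      rw [ha, ← sub_one_mul, norm_neg, ← mul_assoc, norm_mul, norm_mul, norm_mul, abs_of_pos hs0]
      gcongr
      have e1 := Real.add_one_le_exp (-(m a * s))
      have e2 : Real.exp (-(m a * s)) ≤ 1 := by
        rw [Real.exp_le_one_iff, neg_nonpos]; positivity
      rw [Real.norm_eq_abs, Real.norm_eq_abs, Real.norm_eq_abs, abs_of_pos (inv_pos.2 hs0),
        abs_of_nonpos (by linarith), abs_of_nonneg hm0, inv_mul_le_iff₀ hs0]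
      linarith
    · filter_upwards [h] with a ha
      rw [ha]
      exact slope_exp _ _

def DD : Submodule ℝ (Lp ℝ 1 ν) where
  carrier := {x | Integrable (fun a => m a * x a) ν}
  add_mem' {x y} hx hy := (Integrable.add hx hy).congr (by
    filter_upwards [Lp.coeFn_add x y] with a ha
    rw [ha, Pi.add_apply, Pi.add_apply, mul_add])
  zero_mem' := (integrable_zero _ _ _).congr (by
    filter_upwards [Lp.coeFn_zero ℝ 1 ν] with a ha
    rw [ha]; simp)
  smul_mem' c x hx := (Integrable.const_mul hx c).congr (by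
    filter_upwards [Lp.coeFn_smul c x] with a ha
    simp [ha]; ring)

open Classical in
def mul (x : Lp ℝ 1 ν) : Lp ℝ 1 ν :=
  if h : Integrable (fun a => m a * x a) ν then h.toL1 _ else 0

theorem mul_coe {x : Lp ℝ 1 ν} (hx : x ∈ DD m) : mul m x =ᵐ[ν] fun a => m a * x a := by
  have hx' : Integrable (fun a => m a * x a) ν := hx
  rw [mul, dif_pos hx']
  exact hx'.coeFn_toL1

theorem gen_MM' (x y : Lp ℝ 1 ν) :
    (x, y) ∈ Gen (MM (ν := ν) m hm h1) ↔ x ∈ DD m ∧ y = -mul m x := by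
  rw [gen_MM]
  constructor
  · intro h
    have hx : x ∈ DD m := (L1.integrable_coeFn y).neg.congr (by
      filter_upwards [h] with a ha
      simp [ha])
    refine ⟨hx, ?_⟩
    ext1
    filter_upwards [h, mul_coe m hx, Lp.coeFn_neg (mul m x)] with a a1 a2 a3
    rw [a1, a3, Pi.neg_apply, a2]
  · rintro ⟨hx, rfl⟩
    filter_upwards [mul_coe m hx, Lp.coeFn_neg (mul m x)] with a a2 a3
    rw [a3, Pi.neg_apply, a2]

include hm h1 in
theorem DD_dense : Dense (DD (ν := ν) m : Set (Lp ℝ 1 ν)) := by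
  intro x
  have hw : ∀ (n : ℕ) (a : Ξ), |if m a ≤ n then (1 : ℝ) else 0| ≤ 1 := fun n a => by
    split_ifs <;> simp
  have hw' : ∀ n : ℕ, Measurable fun a => if m a ≤ n then (1 : ℝ) else 0 := fun n =>
    Measurable.ite (measurableSet_le hm measurable_const) measurable_const measurable_const
  refine mem_closure_of_tendsto (b := atTop) (f := fun n : ℕ => mulOp _ (hw' n) (hw n) x)
    (tendsto_L1 _ _ _ (fun a => ‖x a‖) (Eventually.of_forall fun n => mulOp_coe _ _ _ x)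
      (Eventually.of_forall fun n => Eventually.of_forall fun a => ?_)
      (L1.integrable_coeFn x).norm (Eventually.of_forall fun a => ?_))
    (Eventually.of_forall fun n => ?_)
  · split_ifs <;> simp
  · refine tendsto_const_nhds.congr' ?_
    filter_upwards [tendsto_natCast_atTop_atTop.eventually_ge_atTop (m a)] with n hn
    simp [hn]
  · refine (int_mul (w := fun a => m a * if m a ≤ n then (1 : ℝ) else 0) (hm.mul (hw' n))
      (C := n) (fun a => ?_) x).congr ?_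
    · split_ifs with h
      · rw [mul_one, abs_of_nonneg (by linarith [h1 a])]; exact h
      · simp
    · filter_upwards [mulOp_coe _ (hw' n) (hw n) x] with a ha
      rw [ha, mul_assoc]

variable [IsProbabilityMeasure ν]

def one : Lp ℝ 1 ν := Lp.const 1 ν (1 : ℝ)

theorem one_coe : (one : Lp ℝ 1 ν) =ᵐ[ν] fun _ => 1 := Lp.coeFn_const _ _ _

def sg : Lp ℝ 1 ν →L[ℝ] ℝ := L1.integralCLM

omit [IsProbabilityMeasure ν] in
theorem sg_apply (x : Lp ℝ 1 ν) : sg x = ∫ a, x a ∂ν := by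
  rw [sg, ← L1.integral_eq, L1.integral_eq_integral]

theorem sg_one : sg (one : Lp ℝ 1 ν) = 1 := by
  rw [sg_apply, integral_congr_ae one_coe]; simp

theorem norm_one' : ‖(one : Lp ℝ 1 ν)‖ = 1 := by
  rw [one, Lp.norm_const _ _ _ one_ne_zero]; simp

def PP (x : Lp ℝ 1 ν) : Lp ℝ 1 ν := sg x • one - x + mul m x

theorem sumG (p : Lp ℝ 1 ν × Lp ℝ 1 ν) :
    p ∈ SumG (MM m hm h1) (PP m) ↔ p.1 ∈ DD m ∧ p.2 = sg p.1 • one - p.1 := by
  simp only [SumG, mem_ofPred_eq, gen_MM', PP]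
  constructor
  · rintro ⟨y, ⟨h, rfl⟩, h2⟩
    exact ⟨h, by rw [h2]; abel⟩
  · rintro ⟨h, h2⟩
    exact ⟨_, ⟨h, rfl⟩, by rw [h2]; abel⟩

omit [IsProbabilityMeasure ν] in
theorem dom_MM : dom (Gen (MM (ν := ν) m hm h1)) = DD (ν := ν) m := by
  ext x
  constructor
  · rintro ⟨⟨x, y⟩, h, rfl⟩
    exact ((gen_MM' m hm h1 x y).1 h).1
  · intro h
    exact ⟨(x, _), (gen_MM' m hm h1 x _).2 ⟨h, rfl⟩, rfl⟩

theorem JJ_sub : IsSub (JJ (sg (ν := ν)) one) := by
  refine ⟨fun x => by simp [JJ_apply], fun s t _ _ x => ?_, fun x => ?_, fun t ht x => ⟨?_,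
    fun hx => ?_⟩⟩
  · simp only [JJ_apply, map_add, map_smul, sg_one, neg_add, Real.exp_add, smul_eq_mul]
    module
  · simp only [JJ_apply]
    fun_prop
  · have e2 : Real.exp (-t) ≤ 1 := by rw [Real.exp_le_one_iff]; linarith
    have e3 : ‖sg x‖ ≤ ‖x‖ := by
      rw [sg_apply, L1.norm_eq_integral_norm]; exact norm_integral_le_integral_norm _
    rw [JJ_apply]
    refine (norm_add_le _ _).trans ?_
    rw [norm_smul, norm_smul, norm_smul, norm_one', Real.norm_of_nonneg (Real.exp_pos _).le,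
      Real.norm_of_nonneg (sub_nonneg.2 e2)]
    nlinarith
  · have e2 : Real.exp (-t) ≤ 1 := by rw [Real.exp_le_one_iff]; linarith
    rw [← Lp.coeFn_nonneg] at hx ⊢
    have e3 : 0 ≤ sg x := by rw [sg_apply]; exact integral_nonneg_of_ae hx
    rw [JJ_apply]
    filter_upwards [hx, Lp.coeFn_add (Real.exp (-t) • x) ((1 - Real.exp (-t)) • sg x • one),
      Lp.coeFn_smul (Real.exp (-t)) x, Lp.coeFn_smul (1 - Real.exp (-t)) (sg x • one),
      Lp.coeFn_smul (sg x) one, one_coe] with a a1 a2 a3 a4 a5 a6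
    rw [a2, Pi.add_apply, a3, a4, Pi.smul_apply, Pi.smul_apply, a5, Pi.smul_apply, a6]
    have : 0 ≤ x a := a1
    simp only [smul_eq_mul, Pi.zero_apply]
    have := Real.exp_pos (-t)
    have := sub_nonneg.2 e2
    positivity

theorem pert : IsPert (fun f : Lp ℝ 1 ν => ∫ a, f a ∂ν) (MM m hm h1) (DD m) (PP m) := by
  refine ⟨fun c x hx y hy => ?_, fun x hx h0 => ?_, (dom_MM m hm h1).le, fun p hp _ => ?_⟩
  · have : mul m (c • x + y) = c • mul m x + mul m y := by
      ext1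
      filter_upwards [mul_coe m hx, mul_coe m hy,
        mul_coe m ((DD m).add_mem ((DD m).smul_mem c hx) hy), Lp.coeFn_add (c • x) y,
        Lp.coeFn_smul c x, Lp.coeFn_add (c • mul m x) (mul m y),
        Lp.coeFn_smul c (mul m x)] with a a1 a2 a3 a4 a5 a6 a7
      rw [a3, a6, a4, Pi.add_apply, Pi.add_apply, a5, a7, Pi.smul_apply, Pi.smul_apply, a1, a2]
      simp only [smul_eq_mul]; ring
    simp only [PP, this, map_add, map_smul, smul_eq_mul]
    module
  · rw [← Lp.coeFn_nonneg] at h0 ⊢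
    have e3 : 0 ≤ sg x := by rw [sg_apply]; exact integral_nonneg_of_ae h0
    filter_upwards [h0, Lp.coeFn_add (sg x • one - x) (mul m x), Lp.coeFn_sub (sg x • one) x,
      mul_coe m hx, Lp.coeFn_smul (sg x) one, one_coe] with a a1 a2 a3 a4 a5 a6
    rw [PP, a2, Pi.add_apply, a3, a4, Pi.sub_apply, a5, Pi.smul_apply, a6]
    have : 0 ≤ x a := a1
    simp only [smul_eq_mul, Pi.zero_apply]
    nlinarith [h1 a]
  · simp only
    rw [← sg_apply, ((sumG m hm h1 p).1 hp).2]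
    simp [sg_one]

include hm h1 in
theorem not_claim (hi : ¬ Integrable m ν) : ¬ Claim (fun f : Lp ℝ 1 ν => ∫ a, f a ∂ν) := by
  intro h
  have hone : (one : Lp ℝ 1 ν) ∉ DD m := fun h => hi (Integrable.congr h (by
    filter_upwards [one_coe (ν := ν)] with a ha
    simp [ha]))
  have hv : (one, 0) ∈ Gen (JJ (sg (ν := ν)) one) := by rw [gen_JJ]; simp [sg_one]
  have g1 : Gen (JJ (sg (ν := ν)) one) = closure (SumG (MM m hm h1) (PP m)) := by
    apply Subset.antisymm
    · rintro ⟨x, y⟩ hp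
      obtain rfl : y = sg x • one - x := (gen_JJ _ _ _).1 hp
      exact map_mem_closure (f := fun x : Lp ℝ 1 ν => (x, sg x • one - x)) (by fun_prop)
        (DD_dense m hm h1 x) fun x hx => (sumG m hm h1 _).2 ⟨hx, rfl⟩
    · refine closure_minimal (fun p hp => (gen_JJ _ _ p).2 ((sumG m hm h1 p).1 hp).2) ?_
      have : Gen (JJ (sg (ν := ν)) one) = {p | p.2 = sg p.1 • one - p.1} := Set.ext (gen_JJ _ _)
      rw [this]
      exact isClosed_eq (by fun_prop) (by fun_prop)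
  have g2 : dom (Gen (JJ (sg (ν := ν)) one)) ≠ dom (Gen (MM m hm h1)) := by
    intro h2
    rw [dom_MM] at h2
    exact hone (by rw [← SetLike.mem_coe, ← h2]; exact ⟨_, hv, rfl⟩)
  have g3 : ∃ v : Lp ℝ 1 ν, 0 ≤ v ∧ v ≠ 0 ∧ v ∉ dom (Gen (MM m hm h1)) ∧
      (v, 0) ∈ Gen (JJ (sg (ν := ν)) one) := by
    refine ⟨one, ?_, fun h0 => ?_, by rw [dom_MM]; exact hone, hv⟩
    · rw [← Lp.coeFn_nonneg]
      filter_upwards [one_coe (ν := ν)] with a ha
      simp [ha]
    · have := norm_one' (ν := ν)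
      simp [h0] at this
  obtain ⟨u, -, hu, r, hr, hl⟩ := h (MM m hm h1) (JJ sg one) (DD m) (PP m) (MM_sub m hm h1)
    (pert m hm h1) ⟨JJ_sub, fun p hp => (gen_JJ _ _ p).2 ((sumG m hm h1 p).1 hp).2,
      fun S hS h2 t ht x _ => (uniq hS (DD_dense m hm h1) sg one sg_one
        (fun x hx => h2 ((sumG m hm h1 _).2 ⟨hx, rfl⟩)) ht x).ge⟩ g1 g2 g3
  · have hw : ∀ a, |(m a)⁻¹| ≤ 1 := fun a => by
      rw [abs_of_pos (inv_pos.2 (by linarith [h1 a]))]; exact inv_le_one_of_one_le₀ (h1 a)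
    set r0 := mulOp _ hm.inv hw u with hr0
    have e1 : Tendsto r (𝓝[>] 0) (𝓝 r0) := by
      refine tendsto_L1 _ _ (fun l a => (l + m a)⁻¹ * u a) (fun a => 2 * ‖u a‖) ?_ ?_
        ((L1.integrable_coeFn u).norm.const_mul 2) ?_
      · filter_upwards [self_mem_nhdsWithin] with l hl
        filter_upwards [(gen_MM m hm h1 _ _).1 (hr l hl), Lp.coeFn_sub (l • r l) u,
          Lp.coeFn_smul l (r l)] with a a1 a2 a3
        rw [a2, Pi.sub_apply, a3, Pi.smul_apply, smul_eq_mul] at a1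
        have : 0 < l + m a := by linarith [h1 a, mem_Ioi.1 hl]
        field_simp
        linarith
      · filter_upwards [self_mem_nhdsWithin] with l hl
        filter_upwards [mulOp_coe _ hm.inv hw u] with a ha
        rw [ha, ← sub_mul, norm_mul]
        gcongr
        refine (norm_sub_le _ _).trans ?_
        have : |(l + m a)⁻¹| ≤ 1 := by
          rw [abs_of_pos (inv_pos.2 (by linarith [h1 a, mem_Ioi.1 hl]))]
          exact inv_le_one_of_one_le₀ (by linarith [h1 a, mem_Ioi.1 hl])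
        simp only [Real.norm_eq_abs, Pi.inv_apply]
        linarith [hw a]
      · filter_upwards [mulOp_coe _ hm.inv hw u] with a ha
        rw [ha]
        have : ContinuousAt (fun l : ℝ => (l + m a)⁻¹ * u a) 0 :=
          ((continuousAt_id.add continuousAt_const).inv₀ (by
            simpa using (by linarith [h1 a] : 0 < m a).ne')).mul continuousAt_const
        simpa using this.tendsto.mono_left nhdsWithin_le_nhds
    have e2 : Tendsto (fun l => PP m (r l)) (𝓝[>] 0) (𝓝 (sg r0 • one - r0 + (u - (0 : ℝ) • r0))) := by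
      refine ((((sg.continuous.tendsto _).comp e1).smul_const _ |>.sub e1).add
        (tendsto_const_nhds.sub ((tendsto_id.mono_left nhdsWithin_le_nhds).smul e1))).congr' ?_
      filter_upwards [self_mem_nhdsWithin] with l hl
      have := ((gen_MM' m hm h1 _ _).1 (hr l hl)).2
      rw [PP, ← neg_neg (mul m (r l)), ← this]
      simp
    have e3 := tendsto_nhds_unique e2 hl
    have e4 : r0 = sg r0 • one := by
      rw [zero_smul, sub_zero, add_eq_right, sub_eq_zero] at e3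
      exact e3.symm
    have e5 : u =ᵐ[ν] fun a => sg r0 * m a := by
      have := mulOp_coe _ hm.inv hw u
      rw [← hr0, e4] at this
      filter_upwards [this, Lp.coeFn_smul (sg r0) one, one_coe] with a a1 a2 a3
      rw [a2, Pi.smul_apply, a3, smul_eq_mul, mul_one] at a1
      have : 0 < m a := by linarith [h1 a]
      rw [a1, Pi.inv_apply]; field_simp
    by_cases h0 : sg r0 = 0
    · apply hu
      ext1
      filter_upwards [e5, Lp.coeFn_zero ℝ 1 ν] with a a1 a2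
      simp [a1, a2, h0]
    · exact hi ((integrable_const_mul_iff (IsUnit.mk0 _ h0) m).1 ((L1.integrable_coeFn u).congr e5))

end L1

theorem result : ¬ ∀ (Ξ : Type) [MeasurableSpace Ξ] (ν : Measure Ξ),
    Claim (fun f : Lp ℝ 1 ν => ∫ a, f a ∂ν) := by
  intro h
  have : IsProbabilityMeasure (volume.restrict (Ioc (0 : ℝ) 1)) := ⟨by simp⟩
  refine not_claim (fun a : ℝ => max 1 a⁻¹) (by fun_prop) (fun a => le_max_left _ _) (fun hi => ?_)
    (h ℝ (volume.restrict (Ioc (0 : ℝ) 1)))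
  have : IntervalIntegrable (fun x : ℝ => x⁻¹) volume 0 1 := by
    rw [intervalIntegrable_iff_integrableOn_Ioc_of_le zero_le_one]
    refine IntegrableOn.congr_fun hi (fun a ha => ?_) measurableSet_Ioc
    exact max_eq_right ((one_le_inv₀ ha.1).2 ha.2)
  simp [intervalIntegrable_inv_iff] at this

end

end Pool.Agent.Results.MP_e4fc02_an.No
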